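import Pool.Agent.W979.TE.Defs

set_option autoImplicit false
set_option linter.all false

open Classical

namespace Pool.Agent.W154.TE

open Pool.Agent.W979.TE MvPolynomial

variable {F ι : Type} [Field F] [Fintype ι]

/-- the monomials with small exponents -/
noncomputable def wb {N : ℕ} (β : ι → Fin N) : MvPolynomial ι F := ∏ j, X j ^ (β j : ℕ)

theorem X_mem (j : ι) : (X j : MvPolynomial ι F) ∈ idealOfVars ι F :=
  Ideal.subset_span ⟨j, rfl⟩

theorem base (N : ℕ) (h : MvPolynomial ι F) :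
    ∃ c0 : (ι → Fin N) → F, h - ∑ β, C (c0 β) * wb β ∈ idealOfVars ι F ^ N := by
  induction h using MvPolynomial.induction_on' with
  | monomial u a =>
    have hmon : monomial u a = C a * ∏ j, (X j : MvPolynomial ι F) ^ (u j) := by
      rw [monomial_eq, Finsupp.prod_fintype]
      intro i; simp
    by_cases hu : ∀ j, u j < N
    · refine ⟨Pi.single (fun j => ⟨u j, hu j⟩) a, ?_⟩
      have : ∑ β, C ((Pi.single (fun j => (⟨u j, hu j⟩ : Fin N)) a : (ι → Fin N) → F) β) * wb β =
          monomial u a := by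
        rw [Finset.sum_eq_single (fun j => (⟨u j, hu j⟩ : Fin N))]
        · rw [Pi.single_eq_same, hmon]; rfl
        · intro b _ hb
          rw [Pi.single_eq_of_ne hb]; simp
        · intro h; exact absurd (Finset.mem_univ _) h
      rw [this, sub_self]
      exact Submodule.zero_mem _
    · push Not at hu
      obtain ⟨j, hj⟩ := hu
      refine ⟨0, ?_⟩
      simp only [Pi.zero_apply, C_0, zero_mul, Finset.sum_const_zero, sub_zero]
      have hd : (X j : MvPolynomial ι F) ^ N ∣ monomial u a := by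
        rw [hmon]
        apply Dvd.dvd.mul_left
        exact (pow_dvd_pow _ hj).trans
          (Finset.dvd_prod_of_mem (fun j => (X j : MvPolynomial ι F) ^ (u j)) (Finset.mem_univ j))
      exact Ideal.mem_of_dvd _ hd (Ideal.pow_mem_pow (X_mem j) N)
  | add p q hp hq =>
    obtain ⟨c0, h0⟩ := hp
    obtain ⟨c1, h1⟩ := hq
    refine ⟨c0 + c1, ?_⟩
    have e : p + q - ∑ β, C ((c0 + c1) β) * wb β =
        (p - ∑ β, C (c0 β) * wb β) + (q - ∑ β, C (c1 β) * wb β) := by
      simp only [Pi.add_apply, C_add, add_mul, Finset.sum_add_distrib]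
      ring
    rw [e]
    exact Submodule.add_mem _ h0 h1

theorem step1 {N : ℕ} (AA : Ideal (MvPolynomial ι F)) (i : ι)
    (hm : idealOfVars ι F ^ N ≤ AA ⊔ Ideal.span {X i}) (g : MvPolynomial ι F) :
    ∃ c0 : (ι → Fin N) → F, ∃ h : MvPolynomial ι F,
      g - ∑ β, C (c0 β) * wb β - X i * h ∈ AA := by
  obtain ⟨c0, h0⟩ := base N g
  obtain ⟨y, hy, z, hz, hyz⟩ := Submodule.mem_sup.1 (hm h0)
  rw [Ideal.mem_span_singleton'] at hz
  obtain ⟨h, hh⟩ := hz
  refine ⟨c0, h, ?_⟩
  rw [← hyz, ← hh]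
  have : y + h * X i - X i * h = y := by ring
  rw [this]
  exact hy

theorem stepk {N : ℕ} (AA : Ideal (MvPolynomial ι F)) (i : ι)
    (hm : idealOfVars ι F ^ N ≤ AA ⊔ Ideal.span {X i}) (k : ℕ) (g : MvPolynomial ι F) :
    ∃ c : (ι → Fin N) → Polynomial F, ∃ h : MvPolynomial ι F,
      g - ∑ β, Polynomial.aeval (X i : MvPolynomial ι F) (c β) * wb β - X i ^ k * h ∈ AA := by
  induction k with
  | zero =>
    refine ⟨0, g, ?_⟩
    simp
  | succ k ih =>
    obtain ⟨c, h, hc⟩ := ih
    obtain ⟨c0, h', hc'⟩ := step1 AA i hm h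
    refine ⟨fun β => c β + Polynomial.X ^ k * Polynomial.C (c0 β), h', ?_⟩
    have e : g - ∑ β, Polynomial.aeval (X i : MvPolynomial ι F)
          (c β + Polynomial.X ^ k * Polynomial.C (c0 β)) * wb β - X i ^ (k + 1) * h' =
        (g - ∑ β, Polynomial.aeval (X i : MvPolynomial ι F) (c β) * wb β - X i ^ k * h) +
        X i ^ k * (h - ∑ β, C (c0 β) * wb β - X i * h') := by
      simp only [map_add, map_mul, map_pow, Polynomial.aeval_X, Polynomial.aeval_C, add_mul,
        Finset.sum_add_distrib, algebraMap_eq, mul_assoc, ← Finset.mul_sum]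
      ring
    rw [e]
    exact Submodule.add_mem _ hc (Ideal.mul_mem_left _ _ hc')

theorem repr {N K : ℕ} (J : Ideal (MvPolynomial ι F)) (i : ι)
    (hm : idealOfVars ι F ^ N ≤ J ⊔ Ideal.span {X i} ⊔ idealOfVars ι F ^ (K + 1))
    (g : MvPolynomial ι F) :
    ∃ c : (ι → Fin N) → Polynomial F,
      g - ∑ β, Polynomial.aeval (X i : MvPolynomial ι F) (c β) * wb β ∈
        J ⊔ idealOfVars ι F ^ (K + 1) := by
  obtain ⟨c, h, hc⟩ := stepk (J ⊔ idealOfVars ι F ^ (K + 1)) i
    (hm.trans (by rw [sup_right_comm])) (K + 1) g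
  refine ⟨c, ?_⟩
  have h1 : X i ^ (K + 1) * h ∈ J ⊔ idealOfVars ι F ^ (K + 1) := by
    apply Ideal.mul_mem_right
    exact (le_sup_right : idealOfVars ι F ^ (K + 1) ≤ _) (Ideal.pow_mem_pow (X_mem i) _)
  have := Submodule.add_mem _ hc h1
  rwa [sub_add_cancel] at this

theorem sup_span_pow {R : Type} [CommRing R] (I : Ideal R) (x : R) (n : ℕ) :
    (I ⊔ Ideal.span {x}) ^ n ≤ I ⊔ Ideal.span {x ^ n} := by
  induction n with
  | zero => simp
  | succ n ih =>
    have h1 : I * (I ⊔ Ideal.span {x}) ≤ I := Ideal.mul_le_inf.trans inf_le_left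
    have h2 : Ideal.span {x ^ n} * I ≤ I := Ideal.mul_le_inf.trans inf_le_right
    have h3 : Ideal.span {x ^ n} * Ideal.span {x} = Ideal.span {x ^ (n + 1)} := by
      rw [Ideal.span_singleton_mul_span_singleton, pow_succ]
    calc (I ⊔ Ideal.span {x}) ^ (n + 1) = (I ⊔ Ideal.span {x}) ^ n * (I ⊔ Ideal.span {x}) :=
          pow_succ _ _
      _ ≤ (I ⊔ Ideal.span {x ^ n}) * (I ⊔ Ideal.span {x}) := Ideal.mul_mono_left ih
      _ = I * (I ⊔ Ideal.span {x}) ⊔ (Ideal.span {x ^ n} * I ⊔ Ideal.span {x ^ (n + 1)}) := by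
          rw [Ideal.sup_mul, Ideal.mul_sup (Ideal.span {x ^ n}), h3]
      _ ≤ I ⊔ Ideal.span {x ^ (n + 1)} :=
          sup_le (h1.trans le_sup_left) (sup_le (h2.trans le_sup_left) le_sup_right)

/-- the polynomial attached to the perturbation -/
noncomputable def lamq {M : ℕ} (lam : Fin M → F) : Polynomial F :=
  ∑ a, Polynomial.C (lam a) * Polynomial.X ^ (a.1 + 1)

theorem aeval_lamq {M : ℕ} (i : ι) (lam : Fin M → F) :
    Polynomial.aeval (X i : MvPolynomial ι F) (lamq lam) = lamP i lam := by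
  unfold lamq lamP
  simp [map_sum, algebraMap_eq]

theorem det_mem {N K M : ℕ} (hN : 1 ≤ N) (J : Ideal (MvPolynomial ι F)) (i : ι)
    (G : MvPolynomial ι F) (a : Matrix (ι → Fin N) (ι → Fin N) (Polynomial F))
    (ha : ∀ α, G * wb α - ∑ β, Polynomial.aeval (X i : MvPolynomial ι F) (a α β) * wb β ∈
        J ⊔ idealOfVars ι F ^ (K + 1)) (lam : Fin M → F) :
    Polynomial.aeval (X i : MvPolynomial ι F) ((-a).charpoly.eval (lamq lam)) ∈
      J ⊔ Ideal.span {G + lamP i lam} ⊔ idealOfVars ι F ^ (K + 1) := by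
  rw [Matrix.eval_charpoly]
  set Mx : Matrix (ι → Fin N) (ι → Fin N) (Polynomial F) :=
    Matrix.scalar (ι → Fin N) (lamq lam) - (-a) with hMx
  set φ := Polynomial.aeval (R := F) (X i : MvPolynomial ι F) with hφ
  set AA := J ⊔ idealOfVars ι F ^ (K + 1) with hAA
  have hle : AA ≤ J ⊔ Ideal.span {G + lamP i lam} ⊔ idealOfVars ι F ^ (K + 1) := by
    rw [hAA, sup_right_comm]; exact le_sup_left
  have hsp : G + lamP i lam ∈ J ⊔ Ideal.span {G + lamP i lam} ⊔ idealOfVars ι F ^ (K + 1) :=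
    (le_sup_left : J ⊔ Ideal.span {G + lamP i lam} ≤ _)
      ((le_sup_right : Ideal.span {G + lamP i lam} ≤ _) (Ideal.mem_span_singleton_self _))
  have hrow : ∀ α, (G + lamP i lam) * wb α - ∑ β, φ (Mx α β) * wb β ∈ AA := by
    intro α
    have e : ∑ β, φ (Mx α β) * wb β = ∑ β, φ (a α β) * wb β + lamP i lam * wb α := by
      have e1 : ∀ β, φ (Mx α β) * wb β = φ (a α β) * wb β +
          (if α = β then lamP i lam * wb β else 0) := by
        intro β
        rw [hMx]
        simp only [sub_neg_eq_add, Matrix.add_apply, Matrix.scalar_apply, Matrix.diagonal_apply,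
          map_add]
        split_ifs with h
        · rw [hφ, aeval_lamq]; ring
        · rw [map_zero]; ring
      rw [Finset.sum_congr rfl (fun β _ => e1 β), Finset.sum_add_distrib, Finset.sum_ite_eq]
      simp
    rw [e]
    have := ha α
    convert this using 1
    ring
  have hN0 : ∃ γ : ι → Fin N, ∀ j, (γ j : ℕ) = 0 := ⟨fun _ => ⟨0, hN⟩, fun _ => rfl⟩
  obtain ⟨γ, hγ⟩ := hN0
  have hw : (wb γ : MvPolynomial ι F) = 1 := by
    unfold wb
    apply Finset.prod_eq_one
    intro j _
    rw [hγ, pow_zero]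
  have hadj := Matrix.adjugate_mul Mx
  have e2 : φ (Mx.det) = ∑ α, φ (Mx.adjugate γ α) * ∑ β, φ (Mx α β) * wb β := by
    have e3 : ∀ β, ∑ α, φ (Mx.adjugate γ α) * φ (Mx α β) = if γ = β then φ Mx.det else 0 := by
      intro β
      have h1 := congrFun (congrFun hadj γ) β
      rw [Matrix.mul_apply, Matrix.smul_apply, Matrix.one_apply] at h1
      have h2 := congrArg φ h1
      rw [map_sum] at h2
      simp only [map_mul, smul_eq_mul] at h2
      rw [h2]
      split_ifs <;> simp
    simp_rw [Finset.mul_sum]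
    rw [Finset.sum_comm]
    have e4 : ∀ β, ∑ α, φ (Mx.adjugate γ α) * (φ (Mx α β) * wb β) =
        (if γ = β then φ Mx.det * wb β else 0) := by
      intro β
      simp_rw [← mul_assoc]
      rw [← Finset.sum_mul, e3 β]
      split_ifs <;> simp
    rw [Finset.sum_congr rfl (fun β _ => e4 β), Finset.sum_ite_eq]
    simp [hw]
  rw [e2]
  apply Submodule.sum_mem
  intro α _
  apply Ideal.mul_mem_left
  have h5 := Submodule.sub_mem _ (Ideal.mul_mem_right (wb α) _ hsp) (hle (hrow α))
  rwa [sub_sub_cancel] at h5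

theorem main (hR : S_RES) : S_EL := by
  intro F ι _ _ _ J i N L K G hN _ hm
  set κ := N ^ Fintype.card ι with hκ
  have hrep := fun α : ι → Fin N => repr J i hm (G * wb α)
  choose a ha using hrep
  set P : Polynomial (Polynomial F) := (-(Matrix.of a)).charpoly with hP
  have hPm : P.Monic := Matrix.charpoly_monic _
  have hPd : P.natDegree = κ := by
    rw [hP, Matrix.charpoly_natDegree_eq_dim, Fintype.card_fun, Fintype.card_fin]
  refine le_trans (Nat.mul_le_mul_right _ (Finset.card_le_card ?_)) (hR F κ L P hPm hPd)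
  intro lam hlam
  rw [Finset.mem_filter] at hlam ⊢
  refine ⟨Finset.mem_univ _, ?_⟩
  by_contra hnd
  apply hlam.2
  -- the determinant
  have hdet := det_mem (K := K) hN J i G (Matrix.of a) ha lam
  set D : Polynomial F := P.eval (lamq lam) with hD
  have hnd' : ¬ Polynomial.X ^ (κ * L + 1) ∣ D := hnd
  set I' := J ⊔ Ideal.span {G + lamP i lam} ⊔ idealOfVars ι F ^ (K + 1) with hI'
  have hD0 : D ≠ 0 := by
    intro h0; apply hnd'; rw [h0]; exact dvd_zero _
  obtain ⟨r, u, hu, hDu⟩ := (Polynomial.X_ne_zero : (Polynomial.X : Polynomial F) ≠ 0) |> fun _ =>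
    (WfDvdMonoid.max_power_factor hD0 (Polynomial.irreducible_X (R := F)))
  have hr : r ≤ κ * L := by
    by_contra hcon
    push Not at hcon
    apply hnd'
    rw [hDu]
    exact Dvd.dvd.mul_right (pow_dvd_pow _ (by omega)) _
  have hcop : IsCoprime u (Polynomial.X ^ (K + 1) : Polynomial F) := by
    apply IsCoprime.pow_right
    exact ((Polynomial.irreducible_X (R := F)).coprime_iff_not_dvd.2 hu).symm
  obtain ⟨s, t, hst⟩ := hcop
  have hXr : (X i : MvPolynomial ι F) ^ r ∈ I' := by
    have h1 := congrArg (Polynomial.aeval (X i : MvPolynomial ι F)) hst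
    simp only [map_add, map_mul, map_pow, Polynomial.aeval_X, map_one] at h1
    have h2 := congrArg (Polynomial.aeval (X i : MvPolynomial ι F)) hDu
    simp only [map_mul, map_pow, Polynomial.aeval_X] at h2
    have h3 : (X i : MvPolynomial ι F) ^ r =
        Polynomial.aeval (X i : MvPolynomial ι F) s * Polynomial.aeval (X i : MvPolynomial ι F) D +
        (X i ^ r * Polynomial.aeval (X i : MvPolynomial ι F) t) * X i ^ (K + 1) := by
      rw [h2]
      linear_combination (-(X i : MvPolynomial ι F) ^ r) * h1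
    rw [h3]
    apply Submodule.add_mem
    · exact Ideal.mul_mem_left _ _ hdet
    · apply Ideal.mul_mem_left
      exact (le_sup_right : idealOfVars ι F ^ (K + 1) ≤ I') (Ideal.pow_mem_pow (X_mem i) _)
  have hXk : (X i : MvPolynomial ι F) ^ (κ * L + 1) ∈ I' := by
    obtain ⟨e, he⟩ : ∃ e, κ * L + 1 = r + e := ⟨κ * L + 1 - r, by omega⟩
    rw [he, pow_add]
    exact Ideal.mul_mem_right _ _ hXr
  have hmN : idealOfVars ι F ^ N ≤ I' ⊔ Ideal.span {X i} := by
    refine hm.trans (sup_le (sup_le ?_ le_sup_right) ?_)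
    · exact (le_sup_left.trans le_sup_left).trans le_sup_left
    · exact le_sup_right.trans le_sup_left
  calc idealOfVars ι F ^ (N * (κ * L + 1)) = (idealOfVars ι F ^ N) ^ (κ * L + 1) := by rw [pow_mul]
    _ ≤ (I' ⊔ Ideal.span {X i}) ^ (κ * L + 1) := Ideal.pow_right_mono hmN _
    _ ≤ I' ⊔ Ideal.span {X i ^ (κ * L + 1)} := sup_span_pow _ _ _
    _ ≤ I' := sup_le le_rfl (by rw [Ideal.span_singleton_le_iff_mem]; exact hXk)

end Pool.Agent.W154.TE
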